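import Mathlib
import Pool.Agent.Lib.MP_078bb2_an.Defs
import Pool.Agent.Lib.MP_078bb2_an.Bridge2
import Pool.Agent.Lib.MP_078bb2_an.Null

set_option autoImplicit false

namespace Pool.Agent.Results.MP_078bb2_an.AlgebraicSupport

open MeasureTheory Pool.Agent.Lib.MP_078bb2_an

/-- If `p > 0` is not an even integer, the support of each minimiser of the `p`-frame energy on
`S^d` lies in the zero set of a polynomial that vanishes identically on no great circle. -/
theorem result (d : ℕ) (p : ℝ) (hp0 : 0 < p) (hp : ∀ k : ℕ, p ≠ 2 * k)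
    (μ : Measure (Metric.sphere (0 : EuclideanSpace ℝ (Fin (d + 1))) 1))
    (hmin : IsMinimizer p μ) :
    ∃ Q : MvPolynomial (Fin (d + 1)) ℝ,
      (∀ x ∈ μ.support, MvPolynomial.eval (fun i => x.1 i) Q = 0) ∧
      ∀ u v : EuclideanSpace ℝ (Fin (d + 1)), ‖u‖ = 1 → ‖v‖ = 1 → inner ℝ u v = 0 →
        ∃ a b : ℝ, a ^ 2 + b ^ 2 = 1 ∧
          MvPolynomial.eval (fun i => (a • u + b • v) i) Q ≠ 0 := by
  have := hmin.1
  by_cases h : ∀ m k : ℕ, 1 ≤ m → m ≤ d → (m : ℝ) * p ≠ k
  · refine null_finite (finite_of_psd' (ptFin_of_forall hp0 h) fun ι _ x a hx => ?_)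
    refine psd_support (μ := μ)
      (K := fun x y : Metric.sphere (0 : EuclideanSpace ℝ (Fin (d + 1))) 1 =>
        |inner ℝ x.1 y.1| ^ p) ?_ (fun x y => by positivity) hmin.2 x a hx
    exact Continuous.rpow_const (by fun_prop) fun _ => Or.inr hp0.le
  · push Not at h
    obtain ⟨m, k, hm, -, hmk⟩ := h
    exact null_rat hp0 hp hm hmk μ hmin.2

end Pool.Agent.Results.MP_078bb2_an.AlgebraicSupport
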