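import Mathlib
import Pool.Agent.Lib.MP_078bb2_an.Defs2
import Pool.Agent.Lib.MP_078bb2_an.Bridge2
import Pool.Agent.Lib.MP_078bb2_an.Rank

set_option autoImplicit false

namespace Pool.Agent.Results.MP_078bb2_an.DenseFinite

open MeasureTheory Pool.Agent.Lib.MP_078bb2_an

/-- For each `p > 0` the `p`-frame energy on `S^d` has a finitely supported minimiser, and each
minimiser shares any finite list of integrals of continuous functions with a finitely supported
minimiser living on its support. -/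
theorem result (d : ℕ) (p : ℝ) (hp0 : 0 < p) :
    (∃ ν : Measure (Metric.sphere (0 : EuclideanSpace ℝ (Fin (d + 1))) 1),
      IsMinimizer p ν ∧ ν.support.Finite) ∧
    ∀ μ : Measure (Metric.sphere (0 : EuclideanSpace ℝ (Fin (d + 1))) 1),
      IsMinimizer p μ → FiniteMatch p μ := by
  let K : Metric.sphere (0 : EuclideanSpace ℝ (Fin (d + 1))) 1 →
      Metric.sphere (0 : EuclideanSpace ℝ (Fin (d + 1))) 1 → ℝ :=
    fun x y => |inner ℝ x.1 y.1| ^ p
  have hK : Continuous fun z : Metric.sphere (0 : EuclideanSpace ℝ (Fin (d + 1))) 1 ×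
      Metric.sphere (0 : EuclideanSpace ℝ (Fin (d + 1))) 1 => K z.1 z.2 :=
    Continuous.rpow_const (by fun_prop) fun _ => Or.inr hp0.le
  have hs : ∀ x y, K x y = K y x := fun x y => by simp only [K, real_inner_comm]
  have key : ∀ μ : Measure (Metric.sphere (0 : EuclideanSpace ℝ (Fin (d + 1))) 1),
      IsMinimizer p μ → FiniteMatch p μ := by
    intro μ hmin s g hg
    have := hmin.1
    have hpsd : ∀ (ι : Type) [Fintype ι] (x : ι → _) (a : ι → ℝ), (∀ i, x i ∈ μ.support) →
        0 ≤ ∑ i, ∑ j, a i * a j * K (x i) (x j) := fun ι _ x a hx =>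
      psd_support (μ := μ) (K := K) hK (fun x y => by positivity) hmin.2 x a hx
    by_cases hp : ∀ m k : ℕ, 1 ≤ m → m ≤ d → (m : ℝ) * p ≠ k
    · exact ⟨μ, hmin, finite_of_psd' (ptFin_of_forall hp0 hp) hpsd, subset_rfl, fun _ => rfl⟩
    · push Not at hp
      obtain ⟨m, k, hm, -, hmk⟩ := hp
      obtain ⟨n, b, hb⟩ := finite_rank hs μ.support hpsd _
        fun b => not_posDef hm hmk fun i => (b i).1
      obtain ⟨ν, h1, h2, h3⟩ := exists_atomic (μ := μ) hK hs hmin.2 b hb g hg
      exact ⟨ν, ⟨h1, h2⟩, h3⟩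
  refine ⟨?_, key⟩
  have : Nonempty (Metric.sphere (0 : EuclideanSpace ℝ (Fin (d + 1))) 1) :=
    (NormedSpace.sphere_nonempty.2 zero_le_one).to_subtype
  obtain ⟨μ, h1, h2⟩ := exists_minim hK
  obtain ⟨ν, h3, h4, -⟩ := key μ ⟨h1, h2⟩ 0 Fin.elim0 fun i => i.elim0
  exact ⟨ν, h3, h4⟩

end Pool.Agent.Results.MP_078bb2_an.DenseFinite
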