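import Mathlib
import Pool.Agent.Lib.MP_078bb2_an.Defs
import Pool.Agent.Lib.MP_078bb2_an.Bridge2
import Pool.Agent.Lib.MP_078bb2_an.Small
import Pool.Agent.Lib.MP_078bb2_an.NI.Main

set_option autoImplicit false

namespace Pool.Agent.Results.MP_078bb2_an.NonInteger

open MeasureTheory Pool.Agent.Lib.MP_078bb2_an

/-- If `p` is not an integer and no multiple `m * p` with `2 ≤ m < d` is an integer, each
minimiser of the `p`-frame energy among Borel probability measures on the unit sphere `S^d` has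
finite support. -/
theorem result (d : ℕ) (p : ℝ) (hp0 : 0 < p) (hp1 : ∀ k : ℕ, p ≠ k)
    (hp : ∀ m k : ℕ, 2 ≤ m → m < d → (m : ℝ) * p ≠ k)
    (μ : Measure (Metric.sphere (0 : EuclideanSpace ℝ (Fin (d + 1))) 1))
    (hmin : IsMinimizer p μ) : μ.support.Finite := by
  have := hmin.1
  rcases lt_or_ge p 2 with h2 | h2
  · exact finite_small hp0 h2 μ hmin.2
  by_cases h : ∀ m k : ℕ, 1 ≤ m → m ≤ d → (m : ℝ) * p ≠ k
  · refine finite_of_psd' (ptFin_of_forall hp0 h) fun ι _ x a hx => ?_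
    refine psd_support (μ := μ)
      (K := fun x y : Metric.sphere (0 : EuclideanSpace ℝ (Fin (d + 1))) 1 =>
        |inner ℝ x.1 y.1| ^ p) ?_ (fun x y => by positivity) hmin.2 x a hx
    exact Continuous.rpow_const (by fun_prop) fun _ => Or.inr hp0.le
  push Not at h
  obtain ⟨m, k, hm, hmd, hmk⟩ := h
  have key : ∀ m k : ℕ, 1 ≤ m → m ≤ d → (m : ℝ) * p = k → m = d ∧ 2 ≤ d := fun m k h1 h3 h4 => by
    have h5 : m ≠ 1 := fun h => hp1 k (by simpa [h] using h4)
    have h6 : ¬ m < d := fun h => hp m k (by omega) h h4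
    omega
  obtain ⟨rfl, hd⟩ := key m k hm hmd hmk
  have hco : Nat.Coprime m k := by
    obtain ⟨g, m', k', hg, hco, h1, h3⟩ := Nat.exists_coprime' (Nat.gcd_pos_of_pos_left k hm)
    have h4 : (m' : ℝ) * p = k' := by
      have h5 : (g : ℝ) ≠ 0 := by exact_mod_cast hg.ne'
      rw [h1, h3] at hmk
      push_cast at hmk
      exact mul_right_cancel₀ h5 (by linarith)
    have h5 : 1 ≤ m' := Nat.pos_of_ne_zero fun h => by simp [h] at h1; omega
    have h6 := (key m' k' h5 (h1 ▸ Nat.le_mul_of_pos_right _ hg) h4).1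
    have h7 : g = 1 := by
      rw [h6] at h1
      exact ((Nat.mul_eq_left (by omega)).1 h1.symm)
    rw [h7, mul_one] at h1 h3
    rwa [h1, h3]
  obtain ⟨d, rfl⟩ : ∃ d, m = d + 1 := ⟨m - 1, by omega⟩
  exact finite_den (by omega) h2 hmk hco μ hmin.2

end Pool.Agent.Results.MP_078bb2_an.NonInteger
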