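import Mathlib
import Pool.Agent.Lib.MP_078bb2_an.Defs
import Pool.Agent.Lib.MP_078bb2_an.Bridge2
import Pool.Agent.Lib.MP_078bb2_an.Chord
import Pool.Agent.Lib.MP_078bb2_an.Small

set_option autoImplicit false

namespace Pool.Agent.Results.MP_078bb2_an.UpToThree

open MeasureTheory Pool.Agent.Lib.MP_078bb2_an

/-- For each real `p` with `0 < p ≤ 3` and `p ≠ 2`, each minimiser of the `p`-frame energy among
Borel probability measures on the unit sphere `S^d` has finite support. -/
theorem result (d : ℕ) (p : ℝ) (hp0 : 0 < p) (hp3 : p ≤ 3) (hp2 : p ≠ 2)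
    (μ : Measure (Metric.sphere (0 : EuclideanSpace ℝ (Fin (d + 1))) 1))
    (hmin : IsMinimizer p μ) : μ.support.Finite := by
  have := hmin.1
  rcases lt_or_gt_of_ne hp2 with h | h
  · exact finite_small hp0 h μ hmin.2
  by_cases hp : ∀ m k : ℕ, 1 ≤ m → m ≤ d → (m : ℝ) * p ≠ k
  · refine finite_of_psd' (ptFin_of_forall hp0 hp) fun ι _ x a hx => ?_
    refine psd_support (μ := μ)
      (K := fun x y : Metric.sphere (0 : EuclideanSpace ℝ (Fin (d + 1))) 1 =>
        |inner ℝ x.1 y.1| ^ p) ?_ (fun x y => by positivity) hmin.2 x a hx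
    exact Continuous.rpow_const (by fun_prop) fun _ => Or.inr hp0.le
  · push Not at hp
    obtain ⟨m, k, hm, -, hmk⟩ := hp
    exact finite_rat_three h hp3 hm hmk μ hmin.2

end Pool.Agent.Results.MP_078bb2_an.UpToThree
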